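import Pool.Agent.Lib.lead.CXGraphRed
import Pool.Agent.H.MP_cb63a5_lc.A
import Pool.Agent.H.MP_cb63a5_lc.B

namespace Pool.Agent.Results.MP_cb63a5_lc.Hard

open Pool.Agent.Lib.CX Pool.Agent.H.MP_cb63a5_lc

def lt (φ : List (Cl3 ℕ)) (c k : ℕ) : ℕ × Bool :=
  ((litOf (φ.getD c (unit 0 true), k)).1 % (3 * φ.length + 2), (litOf (φ.getD c (unit 0 true), k)).2)
def hl (φ : List (Cl3 ℕ)) : ℕ := (3 * φ.length + 2) * (φ.length + 1)

def iB (p : (ℕ × ℕ × ℕ) × V) : Bool := p.2.1 == 0 && p.2.2.1 < p.1.1 && p.2.2.2 == (0, 0) ||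
  p.2.1 == 1 && p.2.2.1 < p.1.1 && p.2.2.2.1 < 2 && p.2.2.2.2 ≤ 2 * p.1.2.1 ||
  p.2.1 == 2 && p.2.2.1 < p.1.1 + 2 * p.1.2.1 && p.2.2.2 == (0, 0) ||
  p.2.1 == 3 && p.2.2.1 < p.1.1 + 2 * p.1.2.1 && p.2.2.2.1 < 3 && p.2.2.2.2 < 2 * p.1.2.2

def nb (p : ((ℕ × ℕ × ℕ) × V) × V × ℕ) : List V :=
  if p.2.1.1 = 0 then [(1, p.2.1.2.1, p.2.2, 0)] else if p.2.1.1 = 2 then [(3, p.2.1.2.1, p.2.2, 0)] else
  if p.2.1.1 = 1 then (1, p.2.1.2.1, p.2.1.2.2.1, p.2.1.2.2.2 + 1) :: if p.2.1.2.2.2 = 2 * p.1.1.2.1 then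
    [(0, if p.2.1.2.1 + 1 < p.1.1.1 then p.2.1.2.1 + 1 else 0, 0, 0)] else [] else if p.2.1.1 = 3 then
    (3, p.2.1.2.1, p.2.1.2.2.1, p.2.1.2.2.2 + 1) :: if p.2.1.2.2.2 + 1 = 2 * p.1.1.2.2 then [p.1.2] else [] else []

def pr (φ : List (Cl3 ℕ)) : ℕ × ℕ × ℕ := (3 * φ.length + 2, φ.length, hl φ + 1)
def at' (p : List (Cl3 ℕ) × V) : V := att (3 * p.1.length + 2) (lt p.1) p.2.2.1 p.2.2.2.1

def vs (φ : List (Cl3 ℕ)) : List V :=
  (List.range 4 ×ˢ List.range (5 * φ.length + 2) ×ˢ List.range 3 ×ˢ List.range (2 * (hl φ + 1))).filter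
    fun v => iB (pr φ, v)
def es (φ : List (Cl3 ℕ)) : List (V × V) :=
  (vs φ ×ˢ vs φ).filter fun e => e.2 ∈ nb ((pr φ, at' (φ, e.1)), e.1, e.2.2.2.1)

theorem pt : PT fun φ => (mkGr (vs φ) (es φ), 2 * hl φ) := by
  have : PT iB := by unfold iB; fun_prop
  have : PT nb := by unfold nb; fun_prop
  have : PT pr := by unfold pr hl; fun_prop
  have : PT at' := by unfold at' att lt litOf unit; fun_prop
  have : PT vs := by unfold vs hl; fun_prop
  have : PT es := by unfold es; fun_prop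
  unfold hl
  fun_prop

theorem mem_nb {φ u v} : v ∈ nb ((pr φ, at' (φ, u)), u, v.2.2.1) ↔
    E (3 * φ.length + 2) φ.length (hl φ + 1) (lt φ) u v := by
  simp only [nb, E, pr, at']
  split_ifs <;> simp [*]

theorem mem_vs {φ v} : v ∈ vs φ ↔ In (3 * φ.length + 2) φ.length (hl φ + 1) v := by
  obtain ⟨a, i, s, t⟩ := v
  have : φ.length ≤ hl φ := by unfold hl; nlinarith
  simp only [vs, List.mem_filter, List.mem_product, List.mem_range, In, iB, pr]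
  grind

theorem result : NPHard fun a : {a : Gr × ℕ // 0 < a.2 ∧ a.2 ≤ a.1.n} => SAC a.1.1.G a.1.2 := by
  have h2 : ∀ φ, 2 ≤ hl φ := fun φ => by unfold hl; nlinarith
  refine NPHard.of_sat3 (fun φ => ⟨(mkGr (vs φ) (es φ), 2 * hl φ), by have := h2 φ; simp; omega, ?_⟩)
    (pt.subtype _) fun φ hφ => ?_
  · rw [mkGr_n]
    simpa using (List.subperm_of_subset (l₁ := (List.range (2 * hl φ)).map fun t => ((3, 0, 0, t) : V))
      (l₂ := (vs φ).dedup) (List.nodup_range.map fun _ _ => by simp) (List.forall_mem_map.2 fun t ht => by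
        simp [mem_vs, In] at ht ⊢; omega)).length_le
  let e := mkGrEquiv (vs φ) (es φ)
  have adj : ∀ u v, (mkGr (vs φ) (es φ)).G.Adj u v ↔
      A (3 * φ.length + 2) φ.length (hl φ + 1) (lt φ) (e u).1 (e v).1 := fun u v => by
    have hu := mem_vs.1 (e u).2
    have hv := mem_vs.1 (e v).2
    rw [← (mkGrIso _ _).map_rel_iff]
    change (SimpleGraph.fromRel fun u v => (u, v) ∈ es φ).Adj (e u).1 (e v).1 ↔ _
    simp only [SimpleGraph.fromRel_adj, es, List.mem_filter, List.mem_product, A, mem_vs, decide_eq_true_eq, mem_nb]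
    exact ⟨fun h => ⟨hu, hv, h.2.imp (·.2) (·.2)⟩, fun h => ⟨h.2.2.elim E_ne fun h => (E_ne h).symm,
      h.2.2.imp (⟨⟨hu, hv⟩, ·⟩) (⟨⟨hv, hu⟩, ·⟩)⟩⟩
  have l1 : ∀ c k, (lt φ c k).1 < 3 * φ.length + 2 := fun c k => Nat.mod_lt _ (by omega)
  have l2 : ∀ c, ∀ h : c < φ.length, ∀ k < 3, lt φ c k = litOf (φ[c], k) := fun c h k hk => by
    have : (litOf (φ[c], k)).1 < 3 * φ.length := hφ _ (List.getElem_mem h) _ (by
      interval_cases k <;> simp [litOf, Cl3.vars])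
    rw [lt, List.getD_eq_getElem _ _ h, Nat.mod_eq_of_lt (by omega)]
  have P : ∀ κ : ℕ → ℕ, (∀ q, κ q < 3) → (∀ c, κ (3 * φ.length + 2 + (2 * c + 1)) = κ (3 * φ.length + 2 + 2 * c)) →
      ∃ μ : _ → _, (∀ v, (e (μ v)).1 = mu (3 * φ.length + 2) (hl φ + 1) (lt φ) κ (e v).1) ∧
        (∀ v, (mkGr (vs φ) (es φ)).G.Adj v (μ v)) ∧ ∀ v, μ (μ v) = v := fun κ a b => by
    have := fun v => pm (l := hl φ + 1) l1 (Nat.succ_pos _) a b (mem_vs.1 (e v).2)
    refine ⟨fun v => e.symm ⟨_, mem_vs.2 (this v).1.2.1⟩, by simp, fun v => (adj _ _).2 (by simpa using (this v).1),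
      fun v => e.injective (Subtype.ext (by simpa using (this v).2))⟩
  simp only [Sat3, ok_iff, List.forall_mem_iff_getElem]
  constructor
  · rintro ⟨σ, h⟩
    choose! g g1 g2 using h
    let κ (q : ℕ) : ℕ := if q < 3 * φ.length + 2 then (if σ q then 1 else 0) else
      if (q - (3 * φ.length + 2)) / 2 < φ.length then g ((q - (3 * φ.length + 2)) / 2) else 0
    obtain ⟨μ, m1, m2, m3⟩ := P κ (fun q => by simp only [κ]; split_ifs <;> simp [*]) fun c => by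
      simp [κ, show (2 * c + 1) / 2 = c by omega]
    obtain ⟨c1, c2, c3, c4⟩ := complete (l := hl φ + 1) (ℓ := lt φ) (m := φ.length) (κ := κ) (σ := σ)
      (Nat.succ_pos _) (fun q h => if_pos h) fun c h => by simp [κ, h, l2 c h _ (g1 c h), g2]
    exact sac_of m2 m3 (h2 φ) (fun t => e.symm ⟨_, mem_vs.2 (c1 t).1⟩) (fun t => (adj _ _).2 (by simpa using c1 t))
      (congrArg _ (Subtype.ext c2)) (fun s a t b h => c3 s a t b (by simpa using h))
      fun t => e.injective (Subtype.ext (by simpa [m1] using c4 t))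
  · intro h
    obtain ⟨ν, -, n1, n2⟩ := P (fun _ => 0) (by simp) (by simp)
    obtain ⟨W, μ, w0, w1, w2, w3⟩ := sac_to n1 n2 h
    have i : (fun v => (e v).1).Injective := Subtype.val_injective.comp e.injective
    obtain ⟨σ, hσ⟩ := sound (W := (fun v => (e v).1) '' W)
      (μ := fun v => if h : v ∈ vs φ then (e (μ (e.symm ⟨v, h⟩))).1 else v)
      (Set.forall_mem_image.2 fun v _ => mem_vs.1 (e v).2) (w0.image _) (W.toFinite.image _)
      (by rw [Set.ncard_image_of_injective _ i]; exact w1.trans_lt (by simp))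
      (Set.forall_mem_image.2 fun v hv => by
        obtain ⟨a, a1, b, b1, c, a2, b2⟩ := w2 v hv
        exact ⟨_, ⟨a, a1, rfl⟩, _, ⟨b, b1, rfl⟩, i.ne c, (adj _ _).1 a2, (adj _ _).1 b2⟩)
      (fun v hv h => by
        obtain ⟨u, rfl⟩ : ∃ u, (e u).1 = v := ⟨e.symm ⟨v, mem_vs.2 hv⟩, by simp⟩
        obtain ⟨a, b, c⟩ := w3 u fun k => h ⟨u, k, rfl⟩
        have : ∀ u, (e u).1 ∈ vs φ := fun u => (e u).2
        simp only [this, dif_pos, Subtype.coe_eta, Equiv.symm_apply_apply, c, i.mem_set_image]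
        exact ⟨a, (adj _ _).1 b, trivial⟩) l1
    refine ⟨σ, fun c hc => ?_⟩
    obtain ⟨k, hk, h⟩ := hσ c hc
    exact ⟨k, hk, by rwa [l2 c hc k hk] at h⟩

end Pool.Agent.Results.MP_cb63a5_lc.Hard
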